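import Pool.Agent.Helper35.HSF.StE
import Pool.Agent.Helper34.HSF.M_HNB

/-! # Project HSF, module FBS: consequences of FDat. -/

set_option autoImplicit false

namespace Helper9.HSF

open Helper35.HSF Helper35.MS Helper35.PI Helper35.PI2 Helper32.CL
open Helper34.HSF
open scoped ContDiff Topology Manifold BigOperators
open Set Filter

section Matrix

variable {n : ℕ}

theorem fbsQ_nn (K : Fin n → Fin n → ℝ)
    (hp : ∀ U : Fin n → ℝ, ∑ i, U i ^ 2 = 1 → 0 ≤ QK K U) (W : Fin n → ℝ) : 0 ≤ QK K W := by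
  rcases (Finset.sum_nonneg fun i _ => sq_nonneg (W i) : 0 ≤ ∑ i, W i ^ 2).eq_or_lt with h | h
  · have h3 : ∀ i, W i = 0 := by
      intro i
      have h4 := (Finset.sum_eq_zero_iff_of_nonneg (s := Finset.univ)
        (f := fun i => W i ^ 2) (fun i _ => sq_nonneg _)).1 h.symm i (Finset.mem_univ i)
      exact pow_eq_zero_iff (two_ne_zero) |>.1 h4
    simp [QK, h3]
  · set s := ∑ i, W i ^ 2 with hs
    have h1 : ∑ i, ((Real.sqrt s)⁻¹ * W i) ^ 2 = 1 := by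
      simp only [mul_pow, ← Finset.mul_sum]
      rw [← hs, inv_pow, Real.sq_sqrt h.le, inv_mul_cancel₀ h.ne']
    have h2 := hp _ h1
    rw [QK_smul] at h2
    have h3 : 0 < (Real.sqrt s)⁻¹ ^ 2 := by
      have := Real.sqrt_pos.2 h
      positivity
    exact (mul_nonneg_iff_of_pos_left h3).1 h2

theorem fbsQ_two (K : Fin n → Fin n → ℝ) (hK : ∀ i j, K i j = K j i) (s : ℝ) (a b : Fin n) :
    QK K (fun i => s * eU a i + eU b i) = K a a * (s * s) + 2 * K a b * s + K b b := by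
  have h1 : QK K (fun i => s * eU a i + eU b i)
      = s ^ 2 * (∑ i, ∑ j, eU a i * eU a j * K i j) + s * (∑ i, ∑ j, eU a i * eU b j * K i j)
        + s * (∑ i, ∑ j, eU b i * eU a j * K i j) + ∑ i, ∑ j, eU b i * eU b j * K i j := by
    simp only [QK, Finset.mul_sum, ← Finset.sum_add_distrib]
    refine Finset.sum_congr rfl fun i _ => Finset.sum_congr rfl fun j _ => ?_
    ring
  have h2 : ∀ c d : Fin n, ∑ i, ∑ j, eU c i * eU d j * K i j = K c d := by
    intro c d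
    simp [eU]
  rw [h1, h2, h2, h2, h2, hK b a]
  ring

theorem fbsQ_le (K : Fin n → Fin n → ℝ) (hK : ∀ i j, K i j = K j i)
    (hp : ∀ U : Fin n → ℝ, ∑ i, U i ^ 2 = 1 → 0 ≤ QK K U) :
    ∑ i, ∑ j, K i j ^ 2 ≤ (∑ i, K i i) ^ 2 := by
  have h1 : ∀ i j, K i j ^ 2 ≤ K i i * K j j := by
    intro i j
    have h2 : ∀ s : ℝ, 0 ≤ K i i * (s * s) + 2 * K i j * s + K j j := by
      intro s
      rw [← fbsQ_two K hK]
      exact fbsQ_nn K hp _
    have h3 := discrim_le_zero h2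
    rw [discrim] at h3
    nlinarith
  rw [_root_.sq (∑ i, K i i), Finset.sum_mul_sum]
  exact Finset.sum_le_sum fun i _ => Finset.sum_le_sum fun j _ => h1 i j

end Matrix

/-- nonnegative normal curvatures: the norm is at most the trace -/
theorem fbs_h2 (hGCH : StGCH) (hNUJ : StNUJ) (hC1 : StC1) (n : ℕ)
    (M : Type) [TopologicalSpace M] [ChartedSpace (EE n) M]
    [IsManifold (𝓡 n) ∞ M] (J : Set ℝ) (F ν : M → ℝ → EE (n + 2)) (hF : HFl n J F ν)
    (q : M) (t : ℝ) (ht : t ∈ J)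
    (hp : ∀ c : Fin n → ℝ, gn F q t c = 1 → 0 ≤ hn F ν q t c) :
    h2N n F q t ≤ Hs n F ν q t ^ 2 := by
  obtain ⟨L, hL⟩ := hC1 n (n + 2) _ (hF.mcf.imm q t ht)
  obtain ⟨u, θ, hG, -, hV⟩ := hGCH n (n + 2) M J F hF.mcf q t ht L hL
  have hK := hNUJ n M J F ν hF q t ht L u θ hG (hV ν hF.sν).1
    (fun i j => inner ℝ (jgg u (0, t) i j) (ν q t)) rfl
  obtain ⟨-, hsym, -, -, hH, hh, -, -⟩ := hK
  set K : Fin n → Fin n → ℝ := fun i j => inner ℝ (jgg u (0, t) i j) (ν q t) with hKdef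
  have hgn : ∀ (c U : Fin n → ℝ), tv F q t c = ∑ i, U i • L (ee i) →
      gn F q t c = ∑ i, U i ^ 2 := by
    intro c U h
    have e : ∑ i, U i • L (ee i) = L (∑ i, U i • ee i) := by
      rw [map_sum]
      exact Finset.sum_congr rfl fun i _ => by rw [map_smul]
    rw [gn, h, e, L.norm_map, nrm_ee]
  have hhn : ∀ (c U : Fin n → ℝ),
      An F q t c = ∑ i, ∑ j, (U i * U j) • jgg u (0, t) i j → hn F ν q t c = QK K U := by
    intro c U h
    rw [hn, h, sum_inner, QK]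
    refine Finset.sum_congr rfl fun i _ => ?_
    rw [sum_inner]
    refine Finset.sum_congr rfl fun j _ => ?_
    rw [real_inner_smul_left]
  have hUc : ∀ U : Fin n → ℝ, ∑ i, U i ^ 2 = 1 → ∃ c : Fin n → ℝ, gn F q t c = 1 ∧
      hn F ν q t c = QK K U := by
    intro U hU
    have h1 : L (∑ i, U i • ee i) ∈ TS (n := n) F q t := by
      have h2 : L (∑ i, U i • ee i) ∈ LinearMap.range L.toLinearMap := ⟨_, rfl⟩
      rw [hL] at h2
      exact h2
    rw [TS, Submodule.mem_span_range_iff_exists_fun] at h1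
    obtain ⟨c, hc⟩ := h1
    obtain ⟨U', h2, h3⟩ := hG.fs' c
    have e : ∑ i, U' i • L (ee i) = L (∑ i, U' i • ee i) := by
      rw [map_sum]
      exact Finset.sum_congr rfl fun i _ => by rw [map_smul]
    have h4 : L (∑ i, U' i • ee i) = L (∑ i, U i • ee i) := by
      rw [← e, ← h2, ← hc]
      rfl
    have h5 := L.injective h4
    have h6 : U' = U := by
      funext j
      rw [← sum_ee n U' j, ← sum_ee n U j, h5]
    subst h6
    exact ⟨c, by rw [hgn c U' h2, hU], hhn c U' h3⟩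
  rw [hH, hh]
  refine fbsQ_le K hsym ?_
  intro U hU
  obtain ⟨c, hc, hc'⟩ := hUc U hU
  rw [← hc']
  exact hp c hc

theorem hFBS (hHNB : StHNB) (hEVF : StEVF) (hGCH : StGCH) (hNUJ : StNUJ) (hC1 : StC1) :
    StFBS := by
  intro n hn1 M _ _ _ T F ν ts ε hD t ht x y
  have hn0 : (0 : ℝ) < n := by exact_mod_cast hn1
  have htJ : t ∈ Ioo 0 T := ⟨lt_of_lt_of_le hD.ts0.1 ht.1, ht.2⟩
  obtain ⟨-, -, -, -, hx5, hx6, -⟩ := hHNB n hn1 M (Ioo 0 T) F ν hD.fl x t htJ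
  obtain ⟨-, -, -, -, -, hy6, -⟩ := hHNB n hn1 M (Ioo 0 T) F ν hD.fl y t htJ
  obtain ⟨-, -, hE⟩ := hEVF n hn1 M (Ioo 0 T) F ν hD.fl
  obtain ⟨-, he, hth, hth0, -⟩ := hE x t htJ
  have hε := hD.ε0
  have hlow : n * ε ≤ Hs n F ν x t :=
    hx6 ε fun c hc => hD.pos t ht x _ (Or.inr ⟨c, hc, rfl⟩)
  have hH0 : 0 < Hs n F ν x t := lt_of_lt_of_le (by positivity) hlow
  obtain ⟨c₀, hc₀, hc₀'⟩ := hx5
  have hkey : ∀ w : M, ∀ z ∈ ZS n F ν w t, ε / n * Hs n F ν x t ≤ z := by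
    intro w z hz
    refine le_trans ?_ (hD.cmp t ht x w z hz c₀ hc₀)
    rw [div_mul_eq_mul_div, div_le_iff₀ hn0]
    calc ε * Hs n F ν x t ≤ ε * (n * hn F ν x t c₀) := mul_le_mul_of_nonneg_left hc₀' hε.le
      _ = ε * hn F ν x t c₀ * n := by ring
  have hchord : F y t ≠ F x t → ε / n * Hs n F ν x t ≤ zch F ν x y t := fun hne =>
    hkey x _ (Or.inl ⟨y, hne, rfl⟩)
  have h2 : h2N n F x t ≤ Hs n F ν x t ^ 2 :=
    fbs_h2 hGCH hNUJ hC1 n M (Ioo 0 T) F ν hD.fl x t htJ fun c hc =>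
      hε.le.trans (hD.pos t ht x _ (Or.inr ⟨c, hc, rfl⟩))
  refine ⟨hlow, ?_, fun c hc => hkey y _ (Or.inr ⟨c, hc, rfl⟩), hchord, ?_, hth0, ?_, ?_, ?_⟩
  · have := hy6 (ε / n * Hs n F ν x t) fun c hc => hkey y _ (Or.inr ⟨c, hc, rfl⟩)
    calc ε * Hs n F ν x t = n * (ε / n * Hs n F ν x t) := by field_simp
      _ ≤ _ := this
  · by_cases hne : F y t = F x t
    · rw [hne, sub_self, norm_zero, zero_mul]
      positivity
    · have h1 := hchord hne
      set w := F y t - F x t with hw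
      have hd : 0 < ‖w‖ := norm_pos_iff.2 (sub_ne_zero.2 hne)
      have h3 : (inner ℝ w (ν x t) : ℝ) ≤ ‖w‖ := by
        have := real_inner_le_norm w (ν x t)
        rwa [hD.fl.nν x t htJ, mul_one] at this
      have h4 : zch F ν x y t ≤ 2 / ‖w‖ := by
        rw [zch, ← hw, div_le_div_iff₀ (by positivity) hd]
        calc 2 * inner ℝ w (ν x t) * ‖w‖ ≤ 2 * ‖w‖ * ‖w‖ := by gcongr
          _ = 2 * ‖w‖ ^ 2 := by ring
      have h5 := h1.trans h4
      rw [le_div_iff₀ hd] at h5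
      rw [le_div_iff₀ hε]
      have h6 : ε / n * Hs n F ν x t * ‖w‖ * n = ‖w‖ * Hs n F ν x t * ε := by
        field_simp
      calc ‖w‖ * Hs n F ν x t * ε = ε / n * Hs n F ν x t * ‖w‖ * n := h6.symm
        _ ≤ 2 * n := mul_le_mul_of_nonneg_right h5 hn0.le
  · rw [hth]
    have : 0 ≤ Hs n F ν x t ^ 2 / n := by positivity
    linarith
  · rw [he]; exact h2
  · rw [hth, he]; ring

end Helper9.HSF
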