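import Pool.Agent.Helper35.HSF.StC

/-!
# Project HSF (MP_925021_gt), module LGE: large chord curvature at every point

Remark: the chord curvature of the second point is itself less than `q₀` in absolute value, which is enough for the
contradiction, so the compactness statement CPZ is not needed.
-/

set_option autoImplicit false

namespace Helper9.HSF

open Helper35.HSF Helper35.MS Helper35.PI Helper35.PI2 Helper32.CL
open Set

private theorem calc1 {ρ q W C D z : ℝ} (hρ : 0 < ρ) (hW : 0 < W) (hCD : C ^ 2 + D ^ 2 = ρ ^ 2)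
    (hWD : W = 2 * ρ ^ 2 - 2 * (ρ * D)) (hz : z * W = 2 * C) (hzq : z ^ 2 < q ^ 2) :
    4 * ρ ^ 2 < W * (1 + ρ ^ 2 * q ^ 2) := by
  -- `4 C² = z² W²`, `C² = (ρ - D)(ρ + D)`, `W = 2 ρ (ρ - D)`
  have h1 : 4 * C ^ 2 = z ^ 2 * W ^ 2 := by
    have : (z * W) ^ 2 = (2 * C) ^ 2 := by rw [hz]
    nlinarith [this]
  have h2 : C ^ 2 = (ρ - D) * (ρ + D) := by nlinarith [hCD]
  have h3 : W = 2 * ρ * (ρ - D) := by rw [hWD]; ring
  -- multiply by `ρ²`
  have h4 : 4 * (ρ ^ 2 * C ^ 2) = W * (4 * ρ ^ 2 - W) := by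
    rw [h2, h3]
    ring
  have h5 : W * (4 * ρ ^ 2 - W) = W * (W * (ρ ^ 2 * z ^ 2)) := by
    rw [← h4]
    have : 4 * (ρ ^ 2 * C ^ 2) = ρ ^ 2 * (4 * C ^ 2) := by ring
    rw [this, h1]
    ring
  have h6 : 4 * ρ ^ 2 - W = W * (ρ ^ 2 * z ^ 2) := mul_left_cancel₀ hW.ne' h5
  have h7 : W * (ρ ^ 2 * z ^ 2) < W * (ρ ^ 2 * q ^ 2) := by
    apply mul_lt_mul_of_pos_left _ hW
    exact mul_lt_mul_of_pos_left hzq (by positivity)
  linarith [h6, h7]

theorem hLGE (hLNE : StLNE) (hDIA : StDIA) (_hCPZ : StCPZ) (hHHY : StHHY) : StLGE := by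
  intro n hn M _ _ _ _ _ J F ν hF t ht hinj x₀ q₀ hq hrr hch y
  by_contra hcon
  have hcon' : ∀ z ∈ ZS n F ν y t, |z| < q₀ := by
    intro z hz
    by_contra h
    exact hcon ⟨z, hz, not_lt.1 h⟩
  have hr0 := hF.r0 t ht
  set ρ : ℝ := Real.sqrt (rr n t) with hρdef
  have hρ : 0 < ρ := Real.sqrt_pos.2 hr0
  have hρ2 : ρ ^ 2 = rr n t := Real.sq_sqrt hr0.le
  have hHy : Hyp n ρ t F ν := hHHY n M J F ν hF t ht
  obtain ⟨hD1, _⟩ := hDIA n M ρ t F ν hHy x₀ q₀ hq hch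
  have h1ρq : 1 < ρ * q₀ := by
    have h1 : 1 < (ρ * q₀) ^ 2 := by
      rw [mul_pow, hρ2]
      exact hrr
    have h2 : 0 < ρ * q₀ := mul_pos hρ hq
    by_contra h
    have h3 : ρ * q₀ ≤ 1 := not_lt.1 h
    have h4 : (ρ * q₀) ^ 2 ≤ 1 := pow_le_one₀ h2.le h3
    linarith
  have hyn : ‖F y t‖ = ρ := hHy.nF y
  have hνn : ‖ν y t‖ = 1 := hHy.nν y
  have hFν : (inner ℝ (F y t) (ν y t) : ℝ) = 0 := hHy.Fν y
  have hyy : (inner ℝ (F y t) (F y t) : ℝ) = ρ ^ 2 := by
    rw [real_inner_self_eq_norm_sq, hyn]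
  have key := hLNE n hn M J F ν hF t ht y (ν y t) (ρ⁻¹ • F y t) hνn
    (by rw [norm_smul, hyn, norm_inv, Real.norm_of_nonneg hρ.le, inv_mul_cancel₀ hρ.ne'])
    (by rw [inner_smul_right, real_inner_comm, hFν, mul_zero])
    (by
      intro q
      rw [inner_smul_right]
      exact mul_pos (inv_pos.2 hρ) ((hD1 q y).2 h1ρq))
    (by
      rw [hFν, zero_smul, zero_add, inner_smul_right, hyy, smul_smul]
      have : ρ⁻¹ * ρ ^ 2 * ρ⁻¹ = 1 := by field_simp
      rw [this, one_smul])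
    (by
      intro q hqe
      by_contra hne
      have hFne : F q t ≠ F y t := fun e => hne (hinj e)
      have hqn : ‖F q t‖ = ρ := hHy.nF q
      set C : ℝ := inner ℝ (F q t) (ν y t) with hC
      set D : ℝ := inner ℝ (F q t) (ρ⁻¹ • F y t) with hD
      have hCD : C ^ 2 + D ^ 2 = ρ ^ 2 := by
        have h1 : (inner ℝ (F q t) (F q t) : ℝ) = ρ ^ 2 := by
          rw [real_inner_self_eq_norm_sq, hqn]
        have h2 : (inner ℝ (F q t) (F q t) : ℝ)
            = inner ℝ (F q t) (C • ν y t + D • (ρ⁻¹ • F y t)) :=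
          congrArg (fun v => (inner ℝ (F q t) v : ℝ)) hqe
        rw [h2, inner_add_right, inner_smul_right, inner_smul_right, ← hC, ← hD] at h1
        nlinarith [h1]
      have hDv : (inner ℝ (F q t) (F y t) : ℝ) = ρ * D := by
        rw [hD, inner_smul_right]
        field_simp
      have hW0 : 0 < ‖F q t - F y t‖ ^ 2 := by
        have : 0 < ‖F q t - F y t‖ := norm_pos_iff.2 (sub_ne_zero.2 hFne)
        positivity
      have hWD : ‖F q t - F y t‖ ^ 2 = 2 * ρ ^ 2 - 2 * (ρ * D) := by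
        rw [norm_sub_sq_real, hqn, hyn, hDv]
        ring
      have hz : zch F ν y q t * ‖F q t - F y t‖ ^ 2 = 2 * C := by
        unfold zch
        rw [inner_sub_left, hFν, sub_zero, ← hC, div_mul_cancel₀ _ hW0.ne']
      have hzZ : zch F ν y q t ∈ ZS n F ν y t := Or.inl ⟨q, hFne, rfl⟩
      have hzq : (zch F ν y q t) ^ 2 < q₀ ^ 2 := by
        rw [← sq_abs (zch F ν y q t)]
        exact pow_lt_pow_left₀ (hcon' _ hzZ) (abs_nonneg _) (by norm_num)
      have h1 := calc1 hρ hW0 hCD hWD hz hzq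
      have h2 := (hD1 q y).1
      linarith)
  rw [real_inner_self_eq_norm_sq, hνn] at key
  norm_num at key

end Helper9.HSF
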